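import Mathlib
import Pool.Agent.Helper31.BAY.Upper

/-! Bayonet codes: a lower bound for the average length. -/

set_option autoImplicit false

namespace Pool.Agent.Helper90.BAV

open Finset
open Pool.Agent.Helper31.BAY

/-- twice the degree plus one -/
def dg (x : ℕ × ℕ) : ℝ := 2 * ((x.1 : ℝ) + x.2) + 1

lemma dg_pos (x : ℕ × ℕ) : 1 ≤ dg x := by
  unfold dg
  have h1 : (0 : ℝ) ≤ x.1 := Nat.cast_nonneg _
  have h2 : (0 : ℝ) ≤ x.2 := Nat.cast_nonneg _
  linarith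

/-- the weight of a set of words -/
def WT (X : Finset (ℕ × ℕ)) : ℝ := ∑ x ∈ X, dg x

variable {P : ℤ → Prop}

lemma PC_subset {X Y : Finset (ℕ × ℕ)} (hX : PC P X) (h : Y ⊆ X) : PC P Y :=
  fun x hx y hy => hX x (h hx) y (h hy)

/-- A positive constant. -/
lemma start (h0 : ¬ P 0) (hs : ∀ d, P d → P (-d)) {X : Finset (ℕ × ℕ)} (hX : PC P X) :
    (1 / 8 : ℝ) * (X.card : ℝ) ^ 2 ≤ WT X := by
  classical
  set N := X.card with hN
  set k := N / 4 with hk
  set A := X.filter (fun x => x.1 + x.2 < k) with hA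
  set B := X.filter (fun x => ¬ (x.1 + x.2 < k)) with hB
  have hAB : A.card + B.card = N := by
    rw [hA, hB, Finset.card_filter_add_card_filter_not]
  have h1 : A.card ≤ 2 * k - 1 := by
    refine card_square h0 hs k (PC_subset hX (filter_subset _ _)) fun x hx => ?_
    have := (mem_filter.1 hx).2
    omega
  have hW : WT X = ∑ x ∈ A, dg x + ∑ x ∈ B, dg x := by
    rw [WT, hA, hB, Finset.sum_filter_add_sum_filter_not]
  have h2 : (A.card : ℝ) ≤ ∑ x ∈ A, dg x := by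
    rw [Finset.card_eq_sum_ones]
    push_cast
    exact Finset.sum_le_sum fun x _ => dg_pos x
  have h3 : (B.card : ℝ) * (2 * k + 1) ≤ ∑ x ∈ B, dg x := by
    have : ∑ x ∈ B, ((2 : ℝ) * k + 1) ≤ ∑ x ∈ B, dg x := by
      refine Finset.sum_le_sum fun x hx => ?_
      have h4 := (mem_filter.1 hx).2
      have h5 : k ≤ x.1 + x.2 := by omega
      have h6 : (k : ℝ) ≤ (x.1 : ℝ) + x.2 := by exact_mod_cast h5
      unfold dg
      linarith
    rwa [Finset.sum_const, nsmul_eq_mul] at this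
  have h7 : 2 * A.card ≤ N := by omega
  have h8 : N ≤ 4 * k + 3 := by omega
  have h9 : (A.card : ℝ) + B.card = N := by exact_mod_cast hAB
  have h10 : (2 : ℝ) * A.card ≤ N := by exact_mod_cast h7
  have h11 : (N : ℝ) ≤ 4 * k + 3 := by exact_mod_cast h8
  have h12 : (0 : ℝ) ≤ A.card := Nat.cast_nonneg _
  have h13 : (0 : ℝ) ≤ (k : ℝ) := Nat.cast_nonneg _
  have h14 : (0 : ℝ) ≤ (N : ℝ) := Nat.cast_nonneg _
  rw [hW]
  have h15 : (N : ℝ) / 2 ≤ B.card := by linarith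
  have h16 : ((N : ℝ) - 1) / 2 ≤ 2 * k + 1 := by linarith
  rcases Nat.eq_zero_or_pos N with hN0 | hN0
  · have : (N : ℝ) = 0 := by exact_mod_cast hN0
    rw [this] at *
    have h17 : (0 : ℝ) ≤ (B.card : ℝ) * (2 * k + 1) := by positivity
    nlinarith
  · rcases Nat.lt_or_ge N 2 with hN2 | hN2
    · have hN1 : (N : ℝ) = 1 := by
        have : N = 1 := by omega
        exact_mod_cast this
      have h18 : (B.card : ℝ) * 1 ≤ (B.card : ℝ) * (2 * k + 1) :=
        mul_le_mul_of_nonneg_left (by linarith) (Nat.cast_nonneg _)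
      rw [hN1]
      rw [hN1] at h9
      norm_num
      linarith
    · have hN3 : (2 : ℝ) ≤ N := by exact_mod_cast hN2
      have h18 : (N : ℝ) / 2 * (((N : ℝ) - 1) / 2) ≤ (B.card : ℝ) * (2 * k + 1) :=
        mul_le_mul h15 h16 (by linarith) (Nat.cast_nonneg _)
      nlinarith

/-- The bound for the positive parts. -/
lemma pos_part {β : ℝ} (hβ : 0 < β)
    (H : ∀ Z : Finset (ℕ × ℕ), PC P Z → β * (Z.card : ℝ) ^ 2 ≤ WT Z)
    {Z : Finset (ℕ × ℕ)} (hZ : PC P Z) (s : ℝ) :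
    ∑ z ∈ Z, max (s - dg z) 0 ≤ (max s 0) ^ 2 / (4 * β) := by
  classical
  set Z' := Z.filter (fun z => dg z < s) with hZ'
  have h1 : ∑ z ∈ Z, max (s - dg z) 0 = ∑ z ∈ Z', (s - dg z) := by
    rw [hZ', Finset.sum_filter]
    refine Finset.sum_congr rfl fun z _ => ?_
    split_ifs with h
    · rw [max_eq_left (by linarith)]
    · rw [max_eq_right (by linarith)]
  have h2 := H Z' (PC_subset hZ (filter_subset _ _))
  have h3 : ∑ z ∈ Z', (s - dg z) = s * Z'.card - WT Z' := by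
    rw [Finset.sum_sub_distrib, Finset.sum_const, nsmul_eq_mul, WT]
    ring
  rw [h1, h3, le_div_iff₀ (by positivity)]
  have h4 : (0 : ℝ) ≤ Z'.card := Nat.cast_nonneg _
  have h5 : s ≤ max s 0 := le_max_left _ _
  have h6 : 0 ≤ max s 0 := le_max_right _ _
  have h7 : s * Z'.card - WT Z' ≤ max s 0 * Z'.card - β * (Z'.card : ℝ) ^ 2 := by
    have := mul_le_mul_of_nonneg_right h5 h4
    linarith
  have h8 : (s * Z'.card - WT Z') * (4 * β) ≤
      (max s 0 * Z'.card - β * (Z'.card : ℝ) ^ 2) * (4 * β) :=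
    mul_le_mul_of_nonneg_right h7 (by positivity)
  refine h8.trans ?_
  nlinarith [sq_nonneg (max s 0 - 2 * β * Z'.card)]

/-- The sum over pairs is the sum over the products. -/
lemma pair_sum (h0 : ¬ P 0) (hs : ∀ d, P d → P (-d)) {X : Finset (ℕ × ℕ)} (hX : PC P X) (K : ℕ)
    (hK : ∀ x ∈ X, ∀ y ∈ X, x.2 + y.1 < K) (S : ℝ) :
    ∑ p ∈ X ×ˢ X, max (S - dg p.1 - dg p.2) 0 =
      ∑ k ∈ range K, ∑ z ∈ YY X k, max ((S - (2 * (k : ℝ) + 1)) - dg z) 0 := by
  classical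
  have hmap : ∀ p ∈ X ×ˢ X, p.1.2 + p.2.1 ∈ range K := by
    intro p hp
    rw [mem_product] at hp
    exact mem_range.2 (hK _ hp.1 _ hp.2)
  rw [← Finset.sum_fiberwise_of_maps_to hmap]
  refine Finset.sum_congr rfl fun k _ => ?_
  rw [YY, Finset.sum_image]
  · refine Finset.sum_congr rfl fun p hp => ?_
    have hk := (mem_filter.1 hp).2
    have hk2 : (p.1.2 : ℝ) + p.2.1 = k := by exact_mod_cast hk
    congr 1
    unfold dg
    simp only
    linarith
  · rintro ⟨x, y⟩ h ⟨x', y'⟩ h' he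
    simp only [coe_filter, mem_product, Set.mem_ofPred_eq] at h h'
    simp only [Prod.mk.injEq] at he
    have := pair_inj h0 hs hX h.1.1 h.1.2 h'.1.1 h'.1.2 (by omega) he.1 he.2
    rw [this.1, this.2]

lemma cube_step (u : ℝ) :
    6 * (max u 0) ^ 2 ≤ (max (u + 1) 0) ^ 3 - (max (u - 1) 0) ^ 3 := by
  rcases le_total u 0 with h | h
  · rw [max_eq_right h, max_eq_right (by linarith : u - 1 ≤ 0)]
    have : 0 ≤ max (u + 1) 0 := le_max_right _ _
    have := pow_nonneg this 3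
    nlinarith
  · rw [max_eq_left h, max_eq_left (by linarith : 0 ≤ u + 1)]
    rcases le_total u 1 with h1 | h1
    · rw [max_eq_right (by linarith : u - 1 ≤ 0)]
      nlinarith [mul_nonneg h (sub_nonneg.2 h1), pow_nonneg h 3]
    · rw [max_eq_left (by linarith : 0 ≤ u - 1)]
      nlinarith

lemma cube_sum (S : ℝ) (K : ℕ) :
    ∑ k ∈ range K, (max (S - (2 * (k : ℝ) + 1)) 0) ^ 2 ≤
      ((max S 0) ^ 3 - (max (S - 2 * K) 0) ^ 3) / 6 := by
  induction K with
  | zero => simp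
  | succ K ih =>
    rw [Finset.sum_range_succ]
    have h := cube_step (S - (2 * (K : ℝ) + 1))
    have e1 : S - (2 * (K : ℝ) + 1) + 1 = S - 2 * K := by ring
    have e2 : S - (2 * (K : ℝ) + 1) - 1 = S - 2 * ((K + 1 : ℕ) : ℝ) := by
      push_cast
      ring
    rw [e1, e2] at h
    linarith

/-- One step. -/
lemma improve (h0 : ¬ P 0) (hs : ∀ d, P d → P (-d)) {β : ℝ} (hβ : 0 < β)
    (H : ∀ Z : Finset (ℕ × ℕ), PC P Z → β * (Z.card : ℝ) ^ 2 ≤ WT Z)
    {X : Finset (ℕ × ℕ)} (hX : PC P X) :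
    8 * β * (X.card : ℝ) ^ 4 ≤ 9 * (WT X) ^ 2 := by
  classical
  rcases X.eq_empty_or_nonempty with rfl | hne
  · have : (0 : ℝ) ≤ 9 * (WT ∅) ^ 2 := by positivity
    simpa using this
  obtain ⟨K, hK⟩ : ∃ K : ℕ, ∀ x ∈ X, ∀ y ∈ X, x.2 + y.1 < K := by
    refine ⟨X.sup (fun x => x.1) + X.sup (fun x => x.2) + 1, fun x hx y hy => ?_⟩
    have h1 : y.1 ≤ X.sup (fun x => x.1) := Finset.le_sup (f := fun x : ℕ × ℕ => x.1) hy
    have h2 : x.2 ≤ X.sup (fun x => x.2) := Finset.le_sup (f := fun x : ℕ × ℕ => x.2) hx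
    omega
  have hN : (0 : ℝ) < (X.card : ℝ) := Nat.cast_pos.2 hne.card_pos
  set N : ℝ := (X.card : ℝ) with hNdef
  set W : ℝ := WT X with hW
  have hWpos : 0 < W := by
    have : β * N ^ 2 ≤ W := H X hX
    have : 0 < β * N ^ 2 := by positivity
    linarith
  set S : ℝ := 3 * (W / N) with hS
  have hS0 : 0 < S := by positivity
  have h1 := pair_sum h0 hs hX K hK S
  have h2 : ∑ k ∈ range K, ∑ z ∈ YY X k, max ((S - (2 * (k : ℝ) + 1)) - dg z) 0 ≤
      ∑ k ∈ range K, (max (S - (2 * (k : ℝ) + 1)) 0) ^ 2 / (4 * β) :=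
    Finset.sum_le_sum fun k _ => pos_part hβ H (PC_YY h0 hs hX k) _
  rw [← Finset.sum_div] at h2
  have h3 := cube_sum S K
  have h4 : (0 : ℝ) ≤ (max (S - 2 * K) 0) ^ 3 := pow_nonneg (le_max_right _ _) 3
  rw [max_eq_left hS0.le] at h3
  have h5 : ∑ k ∈ range K, (max (S - (2 * (k : ℝ) + 1)) 0) ^ 2 ≤ S ^ 3 / 6 := by linarith
  have h6 : (∑ k ∈ range K, (max (S - (2 * (k : ℝ) + 1)) 0) ^ 2) / (4 * β) ≤
      S ^ 3 / 6 / (4 * β) := div_le_div_of_nonneg_right h5 (by positivity)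
  have h7 : ∑ p ∈ X ×ˢ X, (S - dg p.1 - dg p.2) ≤ ∑ p ∈ X ×ˢ X, max (S - dg p.1 - dg p.2) 0 :=
    Finset.sum_le_sum fun p _ => le_max_left _ _
  have h8 : ∑ p ∈ X ×ˢ X, (S - dg p.1 - dg p.2) = N * W := by
    rw [Finset.sum_product]
    have : ∀ x ∈ X, ∑ y ∈ X, (S - dg x - dg y) = N * S - N * dg x - W := by
      intro x _
      rw [Finset.sum_sub_distrib, Finset.sum_const, nsmul_eq_mul, hW, WT]
      ring
    rw [Finset.sum_congr rfl this, Finset.sum_sub_distrib, Finset.sum_sub_distrib,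
      Finset.sum_const, Finset.sum_const, ← Finset.mul_sum, nsmul_eq_mul, nsmul_eq_mul]
    have e : ∑ x ∈ X, dg x = W := rfl
    rw [e, hS, ← hNdef]
    field_simp
    ring
  have h9 : N * W ≤ S ^ 3 / 6 / (4 * β) := by
    rw [← h8]
    exact h7.trans (by rw [h1]; exact h2.trans h6)
  rw [hS] at h9
  have h10 : (3 * (W / N)) ^ 3 / 6 / (4 * β) = 9 * W ^ 3 / (8 * β * N ^ 3) := by
    field_simp
    ring
  rw [h10, le_div_iff₀ (by positivity)] at h9
  have h11 : W * (8 * β * N ^ 4) ≤ W * (9 * W ^ 2) := by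
    nlinarith
  exact le_of_mul_le_mul_left h11 hWpos

/-- The bound for the weight. -/
theorem weight_bound (h0 : ¬ P 0) (hs : ∀ d, P d → P (-d)) {X : Finset (ℕ × ℕ)} (hX : PC P X) :
    8 * (X.card : ℝ) ^ 2 ≤ 9 * WT X := by
  classical
  set T : Set ℝ := {β | ∀ Z : Finset (ℕ × ℕ), PC P Z → β * (Z.card : ℝ) ^ 2 ≤ WT Z} with hT
  have h1 : (1 / 8 : ℝ) ∈ T := fun Z hZ => start h0 hs hZ
  have hone : PC P {((0 : ℕ), (0 : ℕ))} := by
    intro x hx y hy hxy
    rw [mem_singleton] at hx hy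
    exact absurd (hx.trans hy.symm) hxy
  have hbdd : BddAbove T := by
    refine ⟨1, fun β hβ => ?_⟩
    have := hβ _ hone
    simp only [WT, sum_singleton, card_singleton, dg, Nat.cast_zero, Nat.cast_one] at this
    linarith
  set β := sSup T with hβdef
  have hβ1 : 1 / 8 ≤ β := le_csSup hbdd h1
  have hβ0 : 0 < β := by linarith
  have hβT : β ∈ T := by
    intro Z hZ
    rcases eq_or_ne (Z.card : ℝ) 0 with hc | hc
    · rw [hc]
      have : 0 ≤ WT Z := Finset.sum_nonneg fun x _ => by linarith [dg_pos x]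
      simpa using this
    · have hpos : 0 < (Z.card : ℝ) ^ 2 := by positivity
      rw [← le_div_iff₀ hpos]
      refine csSup_le ⟨_, h1⟩ fun γ hγ => ?_
      rw [le_div_iff₀ hpos]
      exact hγ Z hZ
  have hstep : Real.sqrt (8 * β / 9) ∈ T := by
    intro Z hZ
    have h2 := improve h0 hs hβ0 hβT hZ
    have h3 : 0 ≤ WT Z := Finset.sum_nonneg fun x _ => by linarith [dg_pos x]
    refine abs_le_of_sq_le_sq' ?_ h3 |>.2
    rw [mul_pow, Real.sq_sqrt (by positivity)]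
    nlinarith
  have h4 : Real.sqrt (8 * β / 9) ≤ β := le_csSup hbdd hstep
  have h5 : 8 * β / 9 ≤ β ^ 2 := by
    rw [← Real.sq_sqrt (by positivity : 0 ≤ 8 * β / 9)]
    exact pow_le_pow_left₀ (Real.sqrt_nonneg _) h4 2
  have h6 : 8 / 9 ≤ β := by
    by_contra hlt
    rw [not_le] at hlt
    nlinarith
  have h7 := hβT X hX
  have h8 : 8 / 9 * (X.card : ℝ) ^ 2 ≤ β * (X.card : ℝ) ^ 2 :=
    mul_le_mul_of_nonneg_right h6 (by positivity)
  linarith

end Pool.Agent.Helper90.BAV
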